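import Mathlib

/-!
# Project AG: a partial algorithm for the quadratic twists of `X_0(14)`: definitions and statements

`E^D : y² = x³ + 5805 D² x - 285714 D³`.
-/

set_option autoImplicit false

open Finset

namespace Pool.Agent.N62.AG

/-- `N` or `-N` -/
def dsc (N : ℕ) : ℤ := if N % 4 = 1 then (N : ℤ) else -(N : ℤ)

/-- first coefficient -/
def AA (D : ℤ) : ℤ := 5805 * D ^ 2

/-- second coefficient -/
def BB (D : ℤ) : ℤ := -285714 * D ^ 3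

/-- the polynomial `y² - x³ - A x - B` -/
def weier (A B : ℤ) : List (List ℤ) := [[-B, 0, 1], [-A], [], [-1]]

/-- the rational points in the affine plane -/
def Pts (D : ℤ) : Set (ℚ × ℚ) := {p : ℚ × ℚ | p.2 ^ 2 = p.1 ^ 3 + (AA D : ℚ) * p.1 + (BB D : ℚ)}

/-! ### the test -/

/-- the pair `(x, y) = (i % p, i / p)` is a point modulo `p` of `y² = x³ + 5805 x - 285714` -/
abbrev onC (p i : ℕ) : Prop :=
  (i / p * (i / p) + 285714) % p = (i % p * (i % p * (i % p)) + 5805 * (i % p)) % p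

/-- the number of the `i < n` which are points -/
def cnt (p n : ℕ) : ℕ := Nat.rec 0 (fun i c => if onC p i then c + 1 else c) n

/-- `8` divides the number of the points modulo `p` -/
def e8 (p : ℕ) : Prop := 8 ∣ cnt p (p * p) + 1

/-- `n` is not a square modulo `p` -/
def qn (p n : ℕ) : Prop := ∀ x < p, ¬ x * x % p = n % p

/-- the class -/
def cls (N : ℕ) : Prop :=
  (N % 4 = 1 ∧ (N % 7 = 1 ∨ N % 7 = 2 ∨ N % 7 = 4) ∨
    N % 4 = 3 ∧ (N % 7 = 3 ∨ N % 7 = 5 ∨ N % 7 = 6)) ∧ Squarefree N ∧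
  ∀ p < N + 1, (p.Prime ∧ p ∣ N) → (¬ p = 3 ∧ (p % 8 = 1 ∧ (p % 7 = 1 ∨ p % 7 = 2 ∨ p % 7 = 4) ∨
    (p % 8 = 3 ∨ p % 8 = 5) ∧ (p % 7 = 3 ∨ p % 7 = 5 ∨ p % 7 = 6)))

/-- the row of `p` of the matrix, applied to the vector of `m`, is one -/
def row (N p m : ℕ) : Prop :=
  ¬ p ∣ m ∧ qn p m ∨ p ∣ m ∧ (qn p (m / p * (N / p)) ∧ e8 p ∨ ¬ qn p (m / p * (N / p)) ∧ ¬ e8 p)

/-- the matrix is nonsingular -/
def ns (N : ℕ) : Prop :=
  ∀ m < N + 1, (m ∣ N ∧ ¬ m = 1 ∧ ∀ p < N + 1, (p.Prime ∧ p ∣ m) → p % 8 = 1) →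
    ∃ p < N + 1, (p.Prime ∧ p ∣ N ∧ p % 8 = 1) ∧ row N p m

/-- there is a proof that there are finitely many points -/
def PFin (L : List (List ℤ)) : Prop :=
  ∃ N : ℕ, L = weier (AA (dsc N)) (BB (dsc N)) ∧ cls N ∧ ns N

/-! ### the search for points -/

/-- `n` is a square -/
def Sq (n : ℤ) : Prop := ∃ r < n.natAbs + 1, (r : ℤ) * r = n

/-- `(t₁ / t₃, t₂ / t₃)` is a point of `y² = x³ + 13 D x² + 128 D² x`, and neither `x` nor `2 x` is a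
square -/
def C1 (D : ℤ) (t : ℤ × ℤ × ℤ) : Prop := ¬ t.1 = 0 ∧ ¬ t.2.2 = 0 ∧
  t.2.1 * t.2.1 * t.2.2 = t.1 * (t.1 * t.1) + 13 * D * (t.1 * t.1) * t.2.2 +
    128 * (D * D) * t.1 * (t.2.2 * t.2.2) ∧ ¬ Sq (t.1 * t.2.2) ∧ ¬ Sq (2 * (t.1 * t.2.2))

/-- `(t₁ / t₃, t₂ / t₃)` is a point of `y² = x³ - 26 D x² - 343 D² x`, and neither `x` nor `-7 x` is a
square -/
def C2 (D : ℤ) (t : ℤ × ℤ × ℤ) : Prop := ¬ t.1 = 0 ∧ ¬ t.2.2 = 0 ∧
  t.2.1 * t.2.1 * t.2.2 = t.1 * (t.1 * t.1) - 26 * D * (t.1 * t.1) * t.2.2 -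
    343 * (D * D) * t.1 * (t.2.2 * t.2.2) ∧ ¬ Sq (t.1 * t.2.2) ∧ ¬ Sq (-7 * (t.1 * t.2.2))

/-- there is a proof that there are infinitely many points -/
def PInf (L : List (List ℤ)) : Prop :=
  ∃ w : ℤ × ℤ × ℤ × ℤ, ¬ w.1 = 0 ∧ L = weier (AA w.1) (BB w.1) ∧ (C1 w.1 w.2 ∨ C2 w.1 w.2)

/-! ### the statements -/

/-- CNT: the counting function -/
def S_CNT : Prop := ∀ p : ℕ, p.Prime → cnt p (p * p) =
  Nat.card {q : ZMod p × ZMod p // q.2 ^ 2 = q.1 ^ 3 + (5805 : ZMod p) * q.1 + (-285714 : ZMod p)}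

/-- CLS: the class -/
def S_CLS : Prop := ∀ N : ℕ, cls N ↔ Squarefree (dsc N) ∧ dsc N % 4 = 1 ∧
  (dsc N % 7 = 1 ∨ dsc N % 7 = 2 ∨ dsc N % 7 = 4) ∧
  ∀ p : ℕ, p.Prime → (p : ℤ) ∣ dsc N → p ≠ 3 ∧
    ((p.Prime ∧ p % 8 = 1 ∧ (p % 7 = 1 ∨ p % 7 = 2 ∨ p % 7 = 4)) ∨
      (p.Prime ∧ (p % 8 = 3 ∨ p % 8 = 5) ∧ (p % 7 = 3 ∨ p % 7 = 5 ∨ p % 7 = 6)))

open Classical in
/-- the quadratic symbol -/
noncomputable def nr (p n : ℕ) : ZMod 2 := if IsSquare (n : ZMod p) then 0 else 1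

/-- a function set to zero on the inert primes -/
def cu (x : ℕ → ZMod 2) (q : ℕ) : ZMod 2 := if q % 8 = 1 then x q else 0

open Classical in
/-- the diagonal -/
noncomputable def ff (p : ℕ) : ZMod 2 := if 8 ∣ cnt p (p * p) + 1 then 0 else 1

/-- NS: the matrix -/
def S_NS : Prop := ∀ N : ℕ, Squarefree N → N % 2 = 1 →
  (ns N ↔ ∀ x : ℕ → ZMod 2, (∀ p ∈ N.primeFactors, p % 8 = 1 →
    ∑ q ∈ N.primeFactors, nr p q * (cu x q + x p) + ff p * x p = 0) →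
    ∀ p ∈ N.primeFactors, p % 8 = 1 → x p = 0)

/-- REF: the test is recursively enumerable -/
def S_REF : Prop := REPred PFin

/-- REI: the search is recursively enumerable -/
def S_REI : Prop := REPred PInf

/-- SND1: soundness of the first search -/
def S_SND1 : Prop := ∀ (D : ℤ) (t : ℤ × ℤ × ℤ), D ≠ 0 → C1 D t → (Pts D).Infinite

/-- SND2: soundness of the second search -/
def S_SND2 : Prop := ∀ (D : ℤ) (t : ℤ × ℤ × ℤ), D ≠ 0 → C2 D t → (Pts D).Infinite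

/-- CPL: completeness of the search -/
def S_CPL : Prop := ∀ D : ℤ, D ≠ 0 → (Pts D).Infinite → ∃ t : ℤ × ℤ × ℤ, C1 D t ∨ C2 D t

end Pool.Agent.N62.AG
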