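import Pool.Agent.N62.AG.Stm
import Pool.Agent.Results.MP_a3f657_nt.FixedNumberOfPrimes
import Pool.Agent.R395.FT.Comp

/-!
# Project AG: the assembly
-/

set_option autoImplicit false

open Finset Filter Topology

namespace Pool.Agent.N62.AG

open Pool.Agent.TH841.SH.D (Sha)
open Pool.Agent.Results.MP_a3f657_nt.FixedNumberOfPrimes (zs_rz ZeroSeq crit14 E)
open Pool.Agent.Helper446 Pool.Agent.W960.GA

/-- the set `Z_f(ℚ)` of the rational zeros of `f = ∑ L_(i,j) x^i y^j` -/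
def Zeros (L : List (List ℤ)) : Set (ℚ × ℚ) := {p : ℚ × ℚ |
  ∑ i ∈ Finset.range L.length, ∑ j ∈ Finset.range (L.getD i []).length,
    (((L.getD i []).getD j 0 : ℤ) : ℚ) * p.1 ^ i * p.2 ^ j = 0}

theorem zeros_eq (D : ℤ) : Zeros (weier (AA D) (BB D)) = Pts D := by
  ext ⟨x, y⟩
  unfold Zeros weier Pts
  simp only [Set.mem_ofPred_eq, List.length_cons, List.length_nil, Finset.sum_range_succ,
    Finset.sum_range_zero, List.getD_cons_zero, List.getD_cons_succ, List.getD_nil]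
  push_cast
  constructor
  · intro h
    linear_combination h
  · intro h
    linear_combination h

theorem weier_inj {D D' : ℤ} (h : weier (AA D) (BB D) = weier (AA D') (BB D')) : D = D' := by
  unfold weier BB at h
  simp only [List.cons.injEq, neg_inj, and_true] at h
  have h1 : D ^ 3 = D' ^ 3 := by
    have := h.1
    linarith
  exact (Odd.strictMono_pow (by decide : Odd 3)).injective h1

theorem natAbs_dsc (N : ℕ) : (dsc N).natAbs = N := by
  unfold dsc
  split_ifs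
  · exact Int.natAbs_natCast N
  · rw [Int.natAbs_neg, Int.natAbs_natCast]

theorem dsc_natAbs {D : ℤ} (h : D % 4 = 1) : dsc D.natAbs = D := by
  unfold dsc
  rcases Int.natAbs_eq D with e | e
  · rw [if_pos]
    · exact e.symm
    · omega
  · rw [if_neg]
    · exact e.symm
    · omega

theorem cls_adm (h : S_CLS) (N : ℕ) : cls N ↔ Pool.Agent.Y687.MQ.AdmD (dsc N) := h N

theorem ff_eq (h : S_CNT) {p : ℕ} (hp : p.Prime) : ff p = Pool.Agent.Y703.CQ.ff p := by
  have e : cnt p (p * p) + 1 = Pool.Agent.Y687.NN 1 p := by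
    rw [h p hp]
    unfold Pool.Agent.Y687.NN Pool.Agent.Y687.cnt
    norm_num
  unfold ff Pool.Agent.Y703.CQ.ff
  rw [e]

theorem ns_rz (hC : S_CNT) (hL : S_CLS) (hN : S_NS) {N : ℕ} (h : cls N) :
    ns N ↔ Pool.Agent.Y17.X.RZ (dsc N) := by
  have h0 := (cls_adm hL N).1 h
  have hodd : N % 2 = 1 := by
    rcases h.1 with h1 | h1
    · omega
    · omega
  rw [Pool.Agent.Y17.X.rz_iff h0, Pool.Agent.Y703.CQ.gd_iff, natAbs_dsc, hN N h.2.1 hodd]
  unfold Pool.Agent.Y703.CQ.Gd Pool.Agent.Y703.CQ.Sol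
  refine forall_congr' fun x => ?_
  refine imp_congr (forall₂_congr fun p hp => ?_) Iff.rfl
  rw [ff_eq hC (Nat.prime_of_mem_primeFactors hp)]
  rfl

/-- the affine points -/
theorem pts_finite {D : ℤ} (hD : D ≠ 0) (h : Finite (E D).toAffine.Point) : (Pts D).Finite := by
  have hns : ∀ p : Pts D, (E D).toAffine.Nonsingular p.1.1 p.1.2 := by
    rintro ⟨⟨x, y⟩, hp⟩
    have hp' : y ^ 2 = x ^ 3 + (AA D : ℚ) * x + (BB D : ℚ) := hp
    rw [← WeierstrassCurve.Affine.equation_iff_nonsingular_of_Δ_ne_zero]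
    · rw [WeierstrassCurve.Affine.equation_iff]
      show y ^ 2 + 0 * x * y + 0 * y = x ^ 3 + 0 * x ^ 2 + (AA D : ℚ) * x + (BB D : ℚ)
      linear_combination hp'
    · have h1 : (E D).Δ = -16 * (4 * (AA D : ℚ) ^ 3 + 27 * (BB D : ℚ) ^ 2) := by
        unfold E WeierstrassCurve.Δ WeierstrassCurve.b₂ WeierstrassCurve.b₄ WeierstrassCurve.b₆
          WeierstrassCurve.b₈
        show _ = -16 * (4 * (((5805 * D ^ 2 : ℤ)) : ℚ) ^ 3 + 27 * (((-285714 * D ^ 3 : ℤ)) : ℚ) ^ 2)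
        unfold Pool.Agent.Results.MP_a3f657_nt.FixedNumberOfPrimes.A
          Pool.Agent.Results.MP_a3f657_nt.FixedNumberOfPrimes.B
        ring
      have h2 : (4 * (AA D : ℚ) ^ 3 + 27 * (BB D : ℚ) ^ 2) =
          (4 * 5805 ^ 3 + 27 * 285714 ^ 2) * (D : ℚ) ^ 6 := by
        unfold AA BB
        push_cast
        ring
      change (E D).Δ ≠ 0
      rw [h1, h2]
      have h3 : (D : ℚ) ≠ 0 := by exact_mod_cast hD
      exact mul_ne_zero (by norm_num) (mul_ne_zero (by norm_num) (pow_ne_zero 6 h3))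
  let f : Pts D → (E D).toAffine.Point := fun p => WeierstrassCurve.Affine.Point.some _ _ (hns p)
  have hf : Function.Injective f := by
    rintro ⟨⟨x, y⟩, hp⟩ ⟨⟨x', y'⟩, hp'⟩ he
    have h1 := WeierstrassCurve.Affine.Point.some.inj he
    simp only at h1
    obtain ⟨rfl, rfl⟩ := h1
    rfl
  have : Finite (Pts D) := Finite.of_injective f hf
  exact Set.toFinite _

/-- the partial algorithm -/
theorem exists_alg (h1 : S_REI) (h2 : S_REF) : ∃ φ : List (List ℤ) →. Bool, Partrec φ ∧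
    (∀ L, (φ L).Dom ↔ PInf L ∨ PFin L) ∧
    ∀ L, ∀ r ∈ φ L, (r = true ∧ PInf L) ∨ (r = false ∧ PFin L) := by
  have hr : REPred fun x : List (List ℤ) × Bool =>
      (x.2 = true ∧ PInf x.1) ∨ (x.2 = false ∧ PFin x.1) := by
    refine RE.or (RE.and (RE.eq (by fun_prop) (by fun_prop)) (RE.comp h1 (by fun_prop)))
      (RE.and (RE.eq (by fun_prop) (by fun_prop)) (RE.comp h2 (by fun_prop)))
  obtain ⟨f, hf, h3, h4⟩ := RE.uniformize
    (r := fun (L : List (List ℤ)) (b : Bool) => (b = true ∧ PInf L) ∨ (b = false ∧ PFin L)) hr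
  refine ⟨f, hf, fun L => ?_, h4⟩
  rw [h3 L]
  constructor
  · rintro ⟨b, ⟨-, h⟩ | ⟨-, h⟩⟩
    · exact Or.inl h
    · exact Or.inr h
  · rintro (h | h)
    · exact ⟨true, Or.inl ⟨rfl, h⟩⟩
    · exact ⟨false, Or.inr ⟨rfl, h⟩⟩

/-- **the algorithm** -/
theorem algorithm (hC : S_CNT) (hL : S_CLS) (hN : S_NS) (hI : S_REI) (hF : S_REF) (h1 : S_SND1)
    (h2 : S_SND2) (h3 : S_CPL) : ∃ φ : List (List ℤ) →. Bool, Partrec φ ∧
    (∀ L, ∀ r ∈ φ L, (r = true ↔ (Zeros L).Infinite)) ∧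
    (∀ D : ℤ, D ≠ 0 → (Zeros (weier (AA D) (BB D))).Infinite → (φ (weier (AA D) (BB D))).Dom) ∧
    (∀ D : ℤ, Pool.Agent.Y687.MQ.AdmD D →
      (false ∈ φ (weier (AA D) (BB D)) ↔ Pool.Agent.Y17.X.RZ D)) := by
  obtain ⟨φ, hφ, hdom, hval⟩ := exists_alg hI hF
  have hinf : ∀ L, PInf L → (Zeros L).Infinite := by
    rintro L ⟨⟨D, t⟩, hD, rfl, ht⟩
    rw [zeros_eq]
    rcases ht with ht | ht
    · exact h1 D t hD ht
    · exact h2 D t hD ht
  have hfin : ∀ L, PFin L → ¬ (Zeros L).Infinite := by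
    rintro L ⟨N, rfl, hc, hn⟩
    rw [zeros_eq, Set.not_infinite]
    have h4 := (ns_rz hC hL hN hc).1 hn
    refine pts_finite ?_ h4.1
    exact ((cls_adm hL N).1 hc).1.ne_zero
  have hsound : ∀ L, ∀ r ∈ φ L, (r = true ↔ (Zeros L).Infinite) := by
    intro L r hr
    rcases hval L r hr with ⟨rfl, h⟩ | ⟨rfl, h⟩
    · exact ⟨fun _ => hinf L h, fun _ => rfl⟩
    · exact ⟨fun h' => Bool.noConfusion h', fun h' => absurd h' (hfin L h)⟩
  refine ⟨φ, hφ, hsound, fun D hD h => ?_, fun D hD => ?_⟩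
  · rw [zeros_eq] at h
    obtain ⟨t, ht⟩ := h3 D hD h
    exact (hdom _).2 (Or.inl ⟨⟨D, t⟩, hD, rfl, ht⟩)
  · have hD4 := dsc_natAbs hD.2.1
    constructor
    · intro h
      rcases hval _ _ h with ⟨h4, -⟩ | ⟨-, N, h4, hc, hn⟩
      · exact Bool.noConfusion h4
      · rw [weier_inj h4]
        exact (ns_rz hC hL hN hc).1 hn
    · intro h
      have hc : cls D.natAbs := by
        rw [cls_adm hL, hD4]
        exact hD
      have hP : PFin (weier (AA D) (BB D)) :=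
        ⟨D.natAbs, by rw [hD4], hc, (ns_rz hC hL hN hc).2 (by rw [hD4]; exact h)⟩
      obtain ⟨r, hr⟩ := Part.dom_iff_mem.1 ((hdom _).2 (Or.inr hP))
      rcases hval _ _ hr with ⟨rfl, h4⟩ | ⟨rfl, -⟩
      · exact absurd (hinf _ h4) (hfin _ hP)
      · exact hr

end Pool.Agent.N62.AG
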